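import Pool.Agent.W858.ELG.Cnt

set_option autoImplicit false
set_option linter.unusedSectionVars false

namespace Pool.Agent.W858.ELG

open Pool.Agent.W622.ETG Module Finset

/-- the structure of the blocks in case B3S -/
structure Cfg (V : Type) [AddCommGroup V] [Module (ZMod 2) V] [Finite V] (e : V) (A : Fam V)
    (s : Dl V) : Prop where
  cb : CB e A
  se : s e = 1
  sA : sqf s ∈ A
  blk : Block e A (Submodule.span (ZMod 2) {s})
  oth : ∀ X, Block e A X → X ≠ Submodule.span (ZMod 2) {s} →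
    finrank (ZMod 2) X + 1 = finrank (ZMod 2) V ∧ s ∉ X

section
variable {V : Type} [AddCommGroup V] [Module (ZMod 2) V] [Finite V] {e : V} {A : Fam V} {s : Dl V}

theorem Cfg.s0 (h : Cfg V e A s) : s ≠ 0 := by
  rintro rfl
  have := h.se
  simp at this

theorem Cfg.eq_or (h : Cfg V e A s) {b : V} (hb : b ≠ 0) {F : DSub V} (hF : F ∈ BL e A b) :
    F = Submodule.span (ZMod 2) {s} ∧ s b = 0 ∨
      F = ann b ∧ s b = 1 ∧ Block e A (ann b) := by
  obtain ⟨hF1, hF2⟩ := hF
  by_cases hS : F = Submodule.span (ZMod 2) {s}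
  · left
    refine ⟨hS, ?_⟩
    rw [hS] at hF2
    exact hF2 (Submodule.mem_span_singleton_self s)
  · right
    obtain ⟨h1, h2⟩ := h.oth F hF1 hS
    have h3 := eq_ann h1 hb hF2
    refine ⟨h3, ?_, h3 ▸ hF1⟩
    apply z_ne
    intro h4
    apply h2
    rw [h3]
    exact h4

theorem Cfg.res_zero (h : Cfg V e A s) (hCB1 : S_CB1) {b : V} (hsb : s b = 1)
    (hb : ¬ Block e A (ann b)) : finrank (ZMod 2) (res A (ann b)) = 0 := by
  have hb0 : b ≠ 0 := by rintro rfl; simp at hsb
  obtain ⟨-, h2, -⟩ := hCB1 V e A b h.cb hb0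
  rw [h2]
  have : BL e A b = ∅ := by
    ext F
    simp only [Set.mem_empty_iff_false, iff_false]
    intro hF
    rcases h.eq_or hb0 hF with h3 | h3
    · rw [hsb] at h3
      exact absurd h3.2 (by decide)
    · exact hb h3.2.2
  rw [this, Set.ncard_empty]

theorem Cfg.res_le_one (h : Cfg V e A s) (hCB1 : S_CB1) {b : V} (hb0 : b ≠ 0) :
    finrank (ZMod 2) (res A (ann b)) ≤ 1 := by
  obtain ⟨-, h2, -⟩ := hCB1 V e A b h.cb hb0
  rw [h2]
  rw [Set.ncard_le_one (Set.toFinite _)]
  intro F hF F' hF'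
  rcases h.eq_or hb0 hF with h3 | h3 <;> rcases h.eq_or hb0 hF' with h4 | h4
  · rw [h3.1, h4.1]
  · rw [h3.2] at h4; exact absurd h4.2.1 (by decide)
  · rw [h4.2] at h3; exact absurd h3.2.1 (by decide)
  · rw [h3.1, h4.1]

theorem Cfg.kill (h : Cfg V e A s) (hCB1 : S_CB1) {b : V} (hb0 : b ≠ 0) (hsb : s b = 0)
    {ζ : Frm V} (hζ : ζ ∈ A) (hζb : ζ b = 0) (hζ0 : ζ ≠ 0) : ζ = sqf s := by
  have h1 := h.res_le_one hCB1 hb0
  have hEF : EFam e A := h.cb.mc.ef
  have m1 : ζ ∈ res A (ann b) := (mem_res_ann hEF).mpr ⟨hζ, hζb⟩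
  have m2 : sqf s ∈ res A (ann b) := (mem_res_ann hEF).mpr ⟨h.sA, by rw [sqf_apply, hsb, zero_smul]⟩
  exact one_dim (res A (ann b)) h1 m2 m1 (sqf_ne_zero h.s0) hζ0

/-- two different elements with the same nonzero value `f ≠ s` differ by an element off `s` -/
theorem Cfg.pair (h : Cfg V e A s) (hCB1 : S_CB1) {f : Dl V} (hf0 : f ≠ 0) (hfs : f ≠ s)
    {a c : V} (hac : a ≠ c) (ha : f ∈ Submodule.map (LinearMap.applyₗ a) A)
    (hc : f ∈ Submodule.map (LinearMap.applyₗ c) A) : s (a + c) = 1 := by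
  rw [mem_map_ev] at ha hc
  obtain ⟨ω, hω, ha⟩ := ha
  obtain ⟨η, hη, hc⟩ := hc
  obtain ⟨ζ, hζ, h1, h2⟩ := h.cb.mc.her.linked ω hω η hη a c (ha.trans hc.symm)
  rw [ha] at h1 h2
  by_contra h3
  have h4 := z_ne' h3
  have h0 : a + c ≠ 0 := fun h => hac (add_eq_zero'.mp h)
  have h5 := h.kill hCB1 h0 h4 hζ (by rw [map_add, h1, h2, vadd]) (by
    rintro rfl
    exact hf0 h1.symm)
  rw [h5, sqf_apply] at h1
  rcases z01 (s a) with h6 | h6
  · rw [h6, zero_smul] at h1
    exact hf0 h1.symm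
  · rw [h6, one_smul] at h1
    exact hfs h1.symm

theorem Cfg.val_s (h : Cfg V e A s) {a : V} (ha : s ∈ Submodule.map (LinearMap.applyₗ a) A) :
    s a = 1 := by
  rw [mem_map_ev] at ha
  obtain ⟨ω, hω, ha⟩ := ha
  have h1 := (h.cb.mc.ef ω hω).sq a
  have h2 := (h.cb.mc.ef ω hω).symm a e
  rw [ha] at h1
  rw [h1, h.se]

open Classical in
theorem Cfg.upper (h : Cfg V e A s) (hCB1 : S_CB1) [Fintype V] [Fintype (Dl V)] {m : ℕ}
    (hm : finrank (ZMod 2) V = m + 1) :
    ∑ a ∈ univ.filter (fun a : V => a ≠ 0),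
      ((univ.filter (fun f : Dl V => f ≠ 0)).filter
        (fun f => f ∈ Submodule.map (LinearMap.applyₗ a) A)).card + 4 ≤
      2 * 2 ^ (m + 1) + 2 ^ m := by
  have key := Finset.sum_card_bipartiteAbove_eq_sum_card_bipartiteBelow
    (s := univ.filter (fun a : V => a ≠ 0)) (t := univ.filter (fun f : Dl V => f ≠ 0))
    (fun a f => f ∈ Submodule.map (LinearMap.applyₗ a) A)
  unfold bipartiteAbove bipartiteBelow at key
  beta_reduce at key
  rw [key]
  have hs : s ∈ univ.filter (fun f : Dl V => f ≠ 0) := by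
    rw [mem_filter]; exact ⟨mem_univ _, h.s0⟩
  rw [← Finset.sum_erase_add _ _ hs]
  have b1 : ∀ f ∈ (univ.filter (fun f : Dl V => f ≠ 0)).erase s,
      ((univ.filter (fun a : V => a ≠ 0)).filter
        (fun a => f ∈ Submodule.map (LinearMap.applyₗ a) A)).card ≤ 2 := by
    intro f hf
    rw [mem_erase, mem_filter] at hf
    by_contra hcon
    push Not at hcon
    rw [two_lt_card] at hcon
    obtain ⟨a, ha, b, hb, c, hc, hab, hac, hbc⟩ := hcon
    rw [mem_filter] at ha hb hc
    have h1 := h.pair hCB1 hf.2.2 hf.1 hab ha.2 hb.2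
    have h2 := h.pair hCB1 hf.2.2 hf.1 hac ha.2 hc.2
    have h3 := h.pair hCB1 hf.2.2 hf.1 hbc hb.2 hc.2
    rw [map_add] at h1 h2 h3
    rcases z01 (s a) with g1 | g1 <;> rcases z01 (s b) with g2 | g2 <;>
      rcases z01 (s c) with g3 | g3 <;> rw [g1, g2] at h1 <;> rw [g1, g3] at h2 <;>
      rw [g2, g3] at h3 <;> revert h1 h2 h3 <;> decide
  have b2 : ((univ.filter (fun a : V => a ≠ 0)).filter
        (fun a => s ∈ Submodule.map (LinearMap.applyₗ a) A)).card ≤ 2 ^ m := by
    rw [← (card_one h.s0 hm).1]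
    apply card_le_card
    intro a ha
    rw [mem_filter] at ha ⊢
    exact ⟨mem_univ _, h.val_s ha.2⟩
  have b3 := Finset.sum_le_card_nsmul _ _ _ b1
  have b4 : ((univ.filter (fun f : Dl V => f ≠ 0)).erase s).card + 2 = 2 ^ (m + 1) := by
    rw [card_erase_of_mem hs]
    have h5 : (univ.filter (fun f : Dl V => f ≠ 0)).card + 1 = 2 ^ (m + 1) := by
      have h6 := Module.natCard_eq_pow_finrank (K := ZMod 2) (V := Dl V)
      rw [Nat.card_zmod, finrank_Dl, hm, Nat.card_eq_fintype_card] at h6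
      rw [← h6]
      have h7 : (univ.filter (fun f : Dl V => f ≠ 0)) = univ.erase 0 := by
        ext f; simp
      rw [h7, card_erase_of_mem (mem_univ _), card_univ]
      have : 0 < Fintype.card (Dl V) := Fintype.card_pos
      omega
    have h8 : 0 < (univ.filter (fun f : Dl V => f ≠ 0)).card := card_pos.mpr ⟨s, hs⟩
    omega
  rw [smul_eq_mul] at b3
  omega

open Classical in
theorem Cfg.lower_term (h : Cfg V e A s) (hCB1 : S_CB1) [Fintype V] [Fintype (Dl V)] {a : V}
    (ha : a ≠ 0) :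
    2 ^ (finrank (ZMod 2) A - 1) ≤ ((univ.filter (fun f : Dl V => f ≠ 0)).filter
        (fun f => f ∈ Submodule.map (LinearMap.applyₗ a) A)).card + 1 ∧
    (s a = 1 → ¬ Block e A (ann a) →
      ((univ.filter (fun f : Dl V => f ≠ 0)).filter
        (fun f => f ∈ Submodule.map (LinearMap.applyₗ a) A)).card + 1 =
        2 ^ (finrank (ZMod 2) A)) := by
  have h1 := finrank_map_ev h.cb.mc.ef a
  have h2 := h.res_le_one hCB1 ha
  have h3 := card_sub' (Submodule.map (LinearMap.applyₗ a) A : DSub V)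
  rw [h3]
  constructor
  · apply Nat.pow_le_pow_right (by norm_num)
    omega
  · intro hs hb
    have h4 := h.res_zero hCB1 hs hb
    rw [h4, add_zero] at h1
    rw [h1]

open Classical in
theorem Cfg.beta (h : Cfg V e A s) (hOM : S_OM) [Fintype V] :
    (univ.filter (fun a : V => s a = 1 ∧ Block e A (ann a))).card + 2 ≤
      2 ^ finrank (ZMod 2) A := by
  have hloc : ∀ X, Block e A X → LocBlock e A X := fun X hX =>
    hX.resolve_left fun h' => h.cb.nc X h'.1
  have hsp : ∀ a ∈ univ.filter (fun a : V => s a = 1 ∧ Block e A (ann a)),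
      om e A (ann a) ∈ A ∧ om e A (ann a) ≠ 0 ∧ sp (om e A (ann a)) = ann a := by
    intro a ha
    rw [mem_filter] at ha
    obtain ⟨h1, h2, h3, -⟩ := hOM V e A (ann a) h.cb.mc.ef (hloc _ ha.2.2)
    exact ⟨h1, h2, h3⟩
  have hinj : Set.InjOn (fun a : V => om e A (ann a))
      (univ.filter (fun a : V => s a = 1 ∧ Block e A (ann a)) : Finset V) := by
    intro a ha b hb hab
    have h1 := (hsp a ha).2.2
    have h2 := (hsp b hb).2.2
    have hab' : om e A (ann a) = om e A (ann b) := hab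
    rw [hab', h2] at h1
    exact (ann_inj h1).symm
  rw [← card_image_of_injOn hinj]
  apply card_le0 A _ _ h.sA (sqf_ne_zero h.s0)
  · intro hmem
    obtain ⟨a, ha, hae⟩ := mem_image.mp hmem
    have h3 := (hsp a ha).2.2
    rw [hae, sp_sqf h.s0] at h3
    have h4 : s ∈ (ann a : DSub V) := by
      rw [← h3]; exact Submodule.mem_span_singleton_self s
    have h5 : s a = 0 := h4
    rw [mem_filter] at ha
    rw [ha.2.1] at h5
    exact absurd h5 (by decide)
  · intro x hx
    obtain ⟨a, ha, rfl⟩ := mem_image.mp hx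
    exact ⟨(hsp a ha).1, (hsp a ha).2.1⟩

open Classical in
theorem Cfg.dim_le (h : Cfg V e A s) (hOM : S_OM) (hCB1 : S_CB1) :
    finrank (ZMod 2) A ≤ 2 := by
  haveI := Fintype.ofFinite V
  haveI := Fintype.ofFinite (Dl V)
  obtain ⟨m, hm⟩ : ∃ m, finrank (ZMod 2) V = m + 1 := ⟨finrank (ZMod 2) V - 1, by
    have := h.cb.four; omega⟩
  have hm3 : 3 ≤ m := by have := h.cb.four; omega
  have hM : 8 ≤ 2 ^ m := by
    calc 8 = 2 ^ 3 := by norm_num
      _ ≤ 2 ^ m := Nat.pow_le_pow_right (by norm_num) hm3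
  have hup := h.upper hCB1 hm
  obtain ⟨c1, c2, c3⟩ := card_one h.s0 hm
  have hpow : 2 ^ (m + 1) = 2 * 2 ^ m := by ring
  rw [hpow] at hup c3
  by_contra hD
  push Not at hD
  by_cases hD4 : 4 ≤ finrank (ZMod 2) A
  · -- every term is at least seven
    have hlow : ∀ a ∈ univ.filter (fun a : V => a ≠ 0),
        7 ≤ ((univ.filter (fun f : Dl V => f ≠ 0)).filter
          (fun f => f ∈ Submodule.map (LinearMap.applyₗ a) A)).card := by
      intro a ha
      rw [mem_filter] at ha
      have h1 := (h.lower_term hCB1 ha.2).1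
      have h2 : 2 ^ 3 ≤ 2 ^ (finrank (ZMod 2) A - 1) :=
        Nat.pow_le_pow_right (by norm_num) (by omega)
      omega
    have h3 := card_nsmul_le_sum _ _ _ hlow
    rw [smul_eq_mul] at h3
    omega
  · have hD3 : finrank (ZMod 2) A = 3 := by omega
    have hb := h.beta hOM
    rw [hD3] at hb
    have hlow : ∀ a ∈ univ.filter (fun a : V => a ≠ 0),
        3 + (if s a = 1 ∧ ¬ Block e A (ann a) then 4 else 0) ≤
          ((univ.filter (fun f : Dl V => f ≠ 0)).filter
            (fun f => f ∈ Submodule.map (LinearMap.applyₗ a) A)).card := by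
      intro a ha
      rw [mem_filter] at ha
      obtain ⟨h1, h2⟩ := h.lower_term hCB1 ha.2
      rw [hD3] at h1 h2
      split_ifs with h3
      · have h4 := h2 h3.1 h3.2
        omega
      · omega
    have h3 := sum_le_sum hlow
    rw [sum_add_distrib, sum_const, smul_eq_mul, ← sum_filter, sum_const, smul_eq_mul] at h3
    have h4 : (univ.filter (fun a : V => s a = 1)).card ≤
        ((univ.filter (fun a : V => a ≠ 0)).filter
          (fun a => s a = 1 ∧ ¬ Block e A (ann a))).card +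
        (univ.filter (fun a : V => s a = 1 ∧ Block e A (ann a))).card := by
      rw [← card_filter_add_card_filter_not (s := univ.filter (fun a : V => s a = 1))
        (fun a => ¬ Block e A (ann a))]
      apply Nat.add_le_add
      · apply card_le_card
        intro a ha
        rw [mem_filter, mem_filter] at ha
        rw [mem_filter, mem_filter]
        refine ⟨⟨mem_univ _, ?_⟩, ha.1.2, ha.2⟩
        rintro rfl
        have := ha.1.2
        simp at this
      · apply card_le_card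
        intro a ha
        rw [mem_filter, mem_filter] at ha
        rw [mem_filter]
        exact ⟨mem_univ _, ha.1.2, not_not.mp ha.2⟩
    rw [c1] at h4
    omega

end

theorem t_B3S (hBDIS : S_BDIS) (hOM : S_OM) (hCB1 : S_CB1) : S_B3S := by
  intro V _ _ _ e A S hCB hSG hS1 hbad hall
  have hEF := hCB.mc.ef
  have hloc : ∀ X, Block e A X → LocBlock e A X := fun X hX =>
    hX.resolve_left fun h' => hCB.nc X h'.1
  obtain ⟨h1, -, -, -, -, h6⟩ := hOM V e A S hEF (hloc S hSG.1)
  obtain ⟨-, s, hse, hS, hom⟩ := h6 hS1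
  have hs0 : s ≠ 0 := by
    rintro rfl
    simp at hse
  subst hS
  have hcfg : Cfg V e A s := by
    refine ⟨hCB, hse, hom ▸ h1, hSG.1, ?_⟩
    intro X hX hXS
    refine ⟨(hall X hX hXS).2, fun hsX => ?_⟩
    have hd := hBDIS V e A _ X hCB.mc hSG hX (Ne.symm hXS)
    have h7 := (Submodule.disjoint_def.mp hd) s (Submodule.mem_span_singleton_self s) hsX
    exact hs0 h7
  have hD := hcfg.dim_le hOM hCB1
  obtain ⟨F, hF⟩ := hbad
  have hFS : F ≠ Submodule.span (ZMod 2) {s} := by
    rintro rfl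
    exact hF.2 hSG.2
  obtain ⟨g1, g2, g3, -⟩ := hOM V e A F hEF (hloc F hF.1)
  have hd := hBDIS V e A _ F hCB.mc hSG hF.1 (Ne.symm hFS)
  have hne : sqf s ≠ om e A F := by
    intro hEq
    apply hFS
    rw [← g3, ← hEq, sp_sqf hs0]
  have hA := two_dim A hD hcfg.sA g1 (sqf_ne_zero hs0) g2 hne
  apply hCB.mc.nel
  rw [hA]
  apply El.prod
  · exact El.loc _ (sqf_ef hse)
  · exact El.loc _ (hEF _ g1)
  · have u1 : supp (Submodule.span (ZMod 2) {sqf s} : Fam V) ≤ Submodule.span (ZMod 2) {s} := by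
      rw [supp_le]
      intro ω hω a
      rcases (Submodule.mem_span_singleton.mp hω) with ⟨c, rfl⟩
      rw [LinearMap.smul_apply, sqf_apply]
      exact Submodule.smul_mem _ _ (Submodule.smul_mem _ _ (Submodule.mem_span_singleton_self s))
    have u2 : supp (Submodule.span (ZMod 2) {om e A F} : Fam V) ≤ F := by
      rw [supp_le]
      intro ω hω a
      rcases (Submodule.mem_span_singleton.mp hω) with ⟨c, rfl⟩
      rw [LinearMap.smul_apply]
      apply Submodule.smul_mem
      have g4 : om e A F a ∈ sp (om e A F) := ⟨a, rfl⟩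
      rwa [g3] at g4
    exact hd.mono u1 u2

end Pool.Agent.W858.ELG
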