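import Pool.Agent.W622.ETG.Lin

set_option autoImplicit false
set_option linter.unusedSectionVars false

namespace Pool.Agent.W858.ELG

open Pool.Agent.W622.ETG Module Finset

theorem rk0 {K W U : Type} [Field K] [AddCommGroup W] [Module K W] [AddCommGroup U] [Module K U]
    [FiniteDimensional K W] (A : Submodule K W) (φ : W →ₗ[K] U) :
    finrank K (Submodule.map φ A) + finrank K (A ⊓ LinearMap.ker φ : Submodule K W) =
      finrank K A := by
  have h1 := LinearMap.finrank_range_add_finrank_ker (φ.domRestrict A)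
  have h2 : LinearMap.range (φ.domRestrict A) = Submodule.map φ A := by
    rw [LinearMap.range_domRestrict]
  have h3 : finrank K (LinearMap.ker (φ.domRestrict A)) =
      finrank K (A ⊓ LinearMap.ker φ : Submodule K W) := by
    rw [← Submodule.finrank_map_subtype_eq A (LinearMap.ker (φ.domRestrict A))]
    have h4 : Submodule.map A.subtype (LinearMap.ker (φ.domRestrict A)) =
        A ⊓ LinearMap.ker φ := by
      ext ω
      rw [Submodule.mem_map, Submodule.mem_inf, LinearMap.mem_ker]
      constructor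
      · rintro ⟨η, hη, rfl⟩
        exact ⟨η.2, hη⟩
      · rintro ⟨h, h'⟩
        exact ⟨⟨ω, h⟩, h', rfl⟩
    rw [h4]
  rw [h2, h3] at h1
  exact h1

theorem rk {W U : Type} [AddCommMonoid W] [Module (ZMod 2) W] [AddCommMonoid U]
    [Module (ZMod 2) U] [Finite W] (A : Submodule (ZMod 2) W) (φ : W →ₗ[ZMod 2] U) :
    finrank (ZMod 2) (Submodule.map φ A) +
      finrank (ZMod 2) (A ⊓ LinearMap.ker φ : Submodule (ZMod 2) W) = finrank (ZMod 2) A := by
  letI := Module.addCommMonoidToAddCommGroup (ZMod 2) (M := W)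
  letI := Module.addCommMonoidToAddCommGroup (ZMod 2) (M := U)
  haveI : FiniteDimensional (ZMod 2) W := inferInstance
  exact rk0 A φ

theorem one_dim0 {W : Type} [AddCommGroup W] [Module (ZMod 2) W] [Finite W]
    (X : Submodule (ZMod 2) W) (h1 : finrank (ZMod 2) X ≤ 1) {x y : W} (hx : x ∈ X)
    (hy : y ∈ X) (hx0 : x ≠ 0) (hy0 : y ≠ 0) : y = x := by
  have h2 : Submodule.span (ZMod 2) {x} = X := by
    apply Submodule.eq_of_le_of_finrank_le
    · rw [Submodule.span_singleton_le_iff_mem]
      exact hx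
    · rw [finrank_span_singleton hx0]
      exact h1
  rw [← h2, span_one_mem] at hy
  exact hy.resolve_left hy0

theorem one_dim {W : Type} [AddCommMonoid W] [Module (ZMod 2) W] [Finite W]
    (X : Submodule (ZMod 2) W) (h1 : finrank (ZMod 2) X ≤ 1) {x y : W} (hx : x ∈ X)
    (hy : y ∈ X) (hx0 : x ≠ 0) (hy0 : y ≠ 0) : y = x := by
  letI := Module.addCommMonoidToAddCommGroup (ZMod 2) (M := W)
  exact one_dim0 X h1 hx hy hx0 hy0

/-- a subspace of dimension at most two with two different nonzero elements -/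
theorem two_dim0 {W : Type} [AddCommGroup W] [Module (ZMod 2) W] [Finite W]
    (X : Submodule (ZMod 2) W) (h1 : finrank (ZMod 2) X ≤ 2) {x y : W} (hx : x ∈ X)
    (hy : y ∈ X) (hx0 : x ≠ 0) (hy0 : y ≠ 0) (hxy : x ≠ y) :
    X = Submodule.span (ZMod 2) {x} ⊔ Submodule.span (ZMod 2) {y} := by
  symm
  have hd : Disjoint (Submodule.span (ZMod 2) {x}) (Submodule.span (ZMod 2) {y}) := by
    rw [Submodule.disjoint_def]
    intro z hz hz'
    rcases span_one_mem.mp hz with h | h
    · exact h
    · rcases span_one_mem.mp hz' with h' | h'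
      · exact h'
      · exact absurd (h.symm.trans h') hxy
  have h2 := Submodule.finrank_sup_add_finrank_inf_eq (Submodule.span (ZMod 2) {x})
    (Submodule.span (ZMod 2) {y})
  rw [hd.eq_bot, finrank_bot, finrank_span_singleton hx0, finrank_span_singleton hy0] at h2
  apply Submodule.eq_of_le_of_finrank_le
  · rw [sup_le_iff, Submodule.span_singleton_le_iff_mem, Submodule.span_singleton_le_iff_mem]
    exact ⟨hx, hy⟩
  · omega

theorem two_dim {W : Type} [AddCommMonoid W] [Module (ZMod 2) W] [Finite W]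
    (X : Submodule (ZMod 2) W) (h1 : finrank (ZMod 2) X ≤ 2) {x y : W} (hx : x ∈ X)
    (hy : y ∈ X) (hx0 : x ≠ 0) (hy0 : y ≠ 0) (hxy : x ≠ y) :
    X = Submodule.span (ZMod 2) {x} ⊔ Submodule.span (ZMod 2) {y} := by
  letI := Module.addCommMonoidToAddCommGroup (ZMod 2) (M := W)
  exact two_dim0 X h1 hx hy hx0 hy0 hxy

/-- a finite set of nonzero elements of a subspace, avoiding one nonzero element -/
theorem card_le0 {W : Type} [AddCommMonoid W] [Module (ZMod 2) W] [Finite W]
    (X : Submodule (ZMod 2) W) (B : Finset W) (hB : ∀ x ∈ B, x ∈ X ∧ x ≠ 0) {y : W} (hy : y ∈ X)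
    (hy0 : y ≠ 0) (hyB : y ∉ B) : B.card + 2 ≤ 2 ^ finrank (ZMod 2) X := by
  classical
  letI := Module.addCommMonoidToAddCommGroup (ZMod 2) (M := W)
  haveI := Fintype.ofFinite W
  have h1 := Module.natCard_eq_pow_finrank (K := ZMod 2) (V := X)
  rw [Nat.card_zmod] at h1
  rw [← h1]
  have h2 : Nat.card X = (univ.filter (fun f : W => f ∈ X)).card := by
    rw [Nat.card_eq_fintype_card, Fintype.card_subtype]
  rw [h2]
  have h3 : insert 0 (insert y B) ⊆ univ.filter (fun f : W => f ∈ X) := by
    intro x hx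
    rw [mem_filter]
    refine ⟨mem_univ x, ?_⟩
    rcases mem_insert.mp hx with h | h
    · rw [h]; exact X.zero_mem
    · rcases mem_insert.mp h with h | h
      · rw [h]; exact hy
      · exact (hB x h).1
  have h4 := card_le_card h3
  rw [card_insert_of_notMem, card_insert_of_notMem hyB] at h4
  · exact h4
  · intro h
    rcases mem_insert.mp h with h | h
    · exact hy0 h.symm
    · exact (hB 0 h).2 rfl

section
variable {V : Type} [AddCommGroup V] [Module (ZMod 2) V] [Finite V]

theorem ann_inj {a b : V} (h : (ann a : DSub V) = ann b) : a = b := by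
  by_contra hne
  have h0 : a + b ≠ 0 := fun h => hne (add_eq_zero'.mp h)
  obtain ⟨f, hf⟩ := exists_ne_one h0
  rw [map_add] at hf
  rcases z01 (f a) with h1 | h1
  · have h2 : f ∈ (ann a : DSub V) := h1
    rw [h] at h2
    have h3 : f b = 0 := h2
    rw [h1, h3] at hf
    exact absurd hf (by decide)
  · rcases z01 (f b) with h2 | h2
    · have h3 : f ∈ (ann b : DSub V) := h2
      rw [← h] at h3
      have h4 : f a = 0 := h3
      rw [h1] at h4
      exact absurd h4 (by decide)
    · rw [h1, h2] at hf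
      exact absurd hf (by decide)

theorem eq_ann {F : DSub V} {b : V} (hF : finrank (ZMod 2) F + 1 = finrank (ZMod 2) V)
    (hb : b ≠ 0) (h : F ≤ ann b) : F = ann b := by
  apply Submodule.eq_of_le_of_finrank_eq h
  have := finrank_ann hb
  omega

theorem mem_map_ev {A : Fam V} {a : V} {f : Dl V} :
    f ∈ Submodule.map (LinearMap.applyₗ a) A ↔ ∃ ω ∈ A, ω a = f := by
  rw [Submodule.mem_map]
  rfl

theorem finrank_map_ev {e : V} {A : Fam V} (hA : EFam e A) (a : V) :
    finrank (ZMod 2) (Submodule.map (LinearMap.applyₗ a) A : DSub V) +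
      finrank (ZMod 2) (res A (ann a)) = finrank (ZMod 2) A := by
  have h : res A (ann a) = A ⊓ LinearMap.ker (LinearMap.applyₗ a : Frm V →ₗ[ZMod 2] Dl V) := by
    ext ω
    rw [mem_res_ann hA, Submodule.mem_inf, LinearMap.mem_ker]
    rfl
  rw [h]
  exact rk A (LinearMap.applyₗ a)

theorem card_sub {W : Type} [AddCommGroup W] [Module (ZMod 2) W] [Fintype W] [DecidableEq W]
    (X : Submodule (ZMod 2) W) [DecidablePred (· ∈ X)] :
    (Finset.univ.filter (fun f : W => f ∈ X)).card = 2 ^ finrank (ZMod 2) X := by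
  have h1 := Module.natCard_eq_pow_finrank (K := ZMod 2) (V := X)
  rw [Nat.card_zmod] at h1
  rw [← h1, Nat.card_eq_fintype_card, Fintype.card_subtype]

theorem card_sub' {W : Type} [AddCommGroup W] [Module (ZMod 2) W] [Fintype W] [DecidableEq W]
    (X : Submodule (ZMod 2) W) [DecidablePred (· ∈ X)] :
    ((Finset.univ.filter (fun f : W => f ≠ 0)).filter (fun f => f ∈ X)).card + 1 =
      2 ^ finrank (ZMod 2) X := by
  rw [← card_sub X]
  have h : ((Finset.univ.filter (fun f : W => f ≠ 0)).filter (fun f => f ∈ X)) =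
      (Finset.univ.filter (fun f : W => f ∈ X)).erase 0 := by
    ext f
    simp only [Finset.mem_filter, Finset.mem_univ, true_and, Finset.mem_erase]
  rw [h, Finset.card_erase_of_mem (by simp)]
  have : 0 < (Finset.univ.filter (fun f : W => f ∈ X)).card :=
    Finset.card_pos.mpr ⟨0, by simp⟩
  omega

end

end Pool.Agent.W858.ELG
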