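import Pool.Agent.W858.ELG.Base

set_option autoImplicit false
set_option linter.unusedSectionVars false

namespace Pool.Agent.W858.ELG

open Pool.Agent.W622.ETG Module Finset

section
variable {V : Type} [AddCommGroup V] [Module (ZMod 2) V] [Fintype V] [DecidableEq V]

theorem card_one {s : Dl V} (hs : s ≠ 0) {m : ℕ} (hm : finrank (ZMod 2) V = m + 1) :
    (univ.filter (fun a : V => s a = 1)).card = 2 ^ m ∧
    ((univ.filter (fun a : V => a ≠ 0)).filter (fun a : V => s a = 0)).card + 1 = 2 ^ m ∧
    (univ.filter (fun a : V => a ≠ 0)).card + 1 = 2 ^ (m + 1) := by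
  classical
  obtain ⟨a0, ha0⟩ : ∃ a, s a = 1 := by
    by_contra hc
    push Not at hc
    exact hs (LinearMap.ext fun a => z_ne' (hc a))
  have hr : LinearMap.range s = ⊤ := by
    rw [eq_top_iff]
    intro x _
    rcases z01 x with h | h
    · exact ⟨0, by rw [h, map_zero]⟩
    · exact ⟨a0, by rw [h, ha0]⟩
  have h1 : finrank (ZMod 2) (LinearMap.ker s) = m := by
    have := LinearMap.finrank_range_add_finrank_ker s
    rw [hr, finrank_top, finrank_self, hm] at this
    omega
  have h2 := card_sub' (LinearMap.ker s)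
  rw [h1] at h2
  have h3 := card_sub (LinearMap.ker s)
  rw [h1] at h3
  have h4 := card_sub' (⊤ : Submodule (ZMod 2) V)
  have h5 := card_sub (⊤ : Submodule (ZMod 2) V)
  rw [finrank_top, hm] at h4 h5
  have e1 : (univ.filter (fun a : V => a ∈ LinearMap.ker s)) = univ.filter (fun a : V => s a = 0) := by
    ext a; simp
  have e2 : ((univ.filter (fun a : V => a ≠ 0)).filter (fun a => a ∈ LinearMap.ker s)) =
      (univ.filter (fun a : V => a ≠ 0)).filter (fun a : V => s a = 0) := by
    ext a; simp
  have e3 : ((univ.filter (fun a : V => a ≠ 0)).filter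
      (fun a => a ∈ (⊤ : Submodule (ZMod 2) V))) = univ.filter (fun a : V => a ≠ 0) := by
    ext a; simp
  have e5 : (univ.filter (fun a : V => a ∈ (⊤ : Submodule (ZMod 2) V))) = univ := by
    ext a; simp
  rw [e1] at h3
  rw [e2] at h2
  rw [e3] at h4
  rw [e5] at h5
  refine ⟨?_, h2, h4⟩
  have h6 := card_filter_add_card_filter_not (s := (univ : Finset V)) (fun a : V => s a = 0)
  have e6 : (univ.filter (fun a : V => ¬ s a = 0)) = univ.filter (fun a : V => s a = 1) := by
    ext a
    simp only [mem_filter, mem_univ, true_and]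
    constructor
    · exact z_ne
    · intro h; rw [h]; decide
  rw [e6, h3, h5] at h6
  have : 2 ^ (m + 1) = 2 ^ m + 2 ^ m := by ring
  omega

end

end Pool.Agent.W858.ELG
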